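import Pool.Agent.helper80.SV.Spec2

/-!
# Row sv:K23 (problem MP_b5a345_ag): two or three factors
-/

set_option autoImplicit false

namespace Pool.Agent.SV

open MvPolynomial Module

theorem K23_fin3 (P : Fin 3 → Prop) (l : Fin 3) :
    (l = 0 → ((∀ i, i ≠ l → P i) ↔ P 2 ∧ P 1)) ∧ (l = 1 → ((∀ i, i ≠ l → P i) ↔ P 0 ∧ P 2)) ∧
      (l = 2 → ((∀ i, i ≠ l → P i) ↔ P 0 ∧ P 1)) := by
  refine ⟨?_, ?_, ?_⟩
  · rintro rfl
    constructor
    · intro h
      exact ⟨h 2 (by decide), h 1 (by decide)⟩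
    · rintro ⟨h1, h2⟩ i hi
      fin_cases i
      · exact absurd rfl hi
      · exact h2
      · exact h1
  · rintro rfl
    constructor
    · intro h
      exact ⟨h 0 (by decide), h 2 (by decide)⟩
    · rintro ⟨h1, h2⟩ i hi
      fin_cases i
      · exact h1
      · exact absurd rfl hi
      · exact h2
  · rintro rfl
    constructor
    · intro h
      exact ⟨h 0 (by decide), h 1 (by decide)⟩
    · rintro ⟨h1, h2⟩ i hi
      fin_cases i
      · exact h1
      · exact h2
      · exact absurd rfl hi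

theorem K23_three (hPRM : PRM_stmt) (hE11 : E11_stmt) (n d : Fin 3 → ℕ) (hn : ∀ i, 1 ≤ n i)
    (hd : ∀ i, 1 ≤ d i) (l : Fin 3) (hl : n l = 1) (hd1 : ∀ i, i ≠ l → d i = 1) :
    Special n d ↔ ∃ r : ℕ, (∀ i, i ≠ l → ¬ (n i + 1) ∣ r) ∧
      ∑ i ∈ Finset.univ.erase l, r / (n i + 1) = d l := by
  have hl3 : l = 0 ∨ l = 1 ∨ l = 2 := by
    fin_cases l
    · exact Or.inl rfl
    · exact Or.inr (Or.inl rfl)
    · exact Or.inr (Or.inr rfl)
  rcases hl3 with h | h | h
  · have e1 : n ∘ (Equiv.swap (2 : Fin 3) 0) = ![n 2, n 1, 1] := by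
      funext i
      fin_cases i
      · rfl
      · rfl
      · change n 0 = 1
        rw [← h]
        exact hl
    have e2 : d ∘ (Equiv.swap (2 : Fin 3) 0) = ![1, 1, d 0] := by
      funext i
      fin_cases i
      · change d 2 = 1
        exact hd1 2 (by rw [h]; decide)
      · change d 1 = 1
        exact hd1 1 (by rw [h]; decide)
      · rfl
    rw [← hPRM 3 (Equiv.swap (2 : Fin 3) 0) n d, e1, e2, hE11 (n 2) (n 1) (d 0) (hn 2) (hn 1) (hd 0)]
    have e3 : Finset.univ.erase l = ({2, 1} : Finset (Fin 3)) := by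
      rw [h]
      decide
    constructor
    · rintro ⟨r, h1, h2, h3⟩
      refine ⟨r, ((K23_fin3 _ l).1 h).mpr ⟨h1, h2⟩, ?_⟩
      rw [e3, Finset.sum_pair (by decide), h3, h]
    · rintro ⟨r, h1, h2⟩
      obtain ⟨h3, h4⟩ := ((K23_fin3 _ l).1 h).mp h1
      rw [e3, Finset.sum_pair (by decide), h] at h2
      exact ⟨r, h3, h4, h2⟩
  · have e1 : n ∘ (Equiv.swap (2 : Fin 3) 1) = ![n 0, n 2, 1] := by
      funext i
      fin_cases i
      · rfl
      · rfl
      · change n 1 = 1
        rw [← h]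
        exact hl
    have e2 : d ∘ (Equiv.swap (2 : Fin 3) 1) = ![1, 1, d 1] := by
      funext i
      fin_cases i
      · change d 0 = 1
        exact hd1 0 (by rw [h]; decide)
      · change d 2 = 1
        exact hd1 2 (by rw [h]; decide)
      · rfl
    rw [← hPRM 3 (Equiv.swap (2 : Fin 3) 1) n d, e1, e2, hE11 (n 0) (n 2) (d 1) (hn 0) (hn 2) (hd 1)]
    have e3 : Finset.univ.erase l = ({0, 2} : Finset (Fin 3)) := by
      rw [h]
      decide
    constructor
    · rintro ⟨r, h1, h2, h3⟩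
      refine ⟨r, ((K23_fin3 _ l).2.1 h).mpr ⟨h1, h2⟩, ?_⟩
      rw [e3, Finset.sum_pair (by decide), h3, h]
    · rintro ⟨r, h1, h2⟩
      obtain ⟨h3, h4⟩ := ((K23_fin3 _ l).2.1 h).mp h1
      rw [e3, Finset.sum_pair (by decide), h] at h2
      exact ⟨r, h3, h4, h2⟩
  · have e1 : n = ![n 0, n 1, 1] := by
      funext i
      fin_cases i
      · rfl
      · rfl
      · change n 2 = 1
        rw [← h]
        exact hl
    have e2 : d = ![1, 1, d 2] := by
      funext i
      fin_cases i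
      · change d 0 = 1
        exact hd1 0 (by rw [h]; decide)
      · change d 1 = 1
        exact hd1 1 (by rw [h]; decide)
      · rfl
    have e4 : Special n d ↔ Special ![n 0, n 1, 1] ![1, 1, d 2] := by
      rw [← e1, ← e2]
    rw [e4, hE11 (n 0) (n 1) (d 2) (hn 0) (hn 1) (hd 2)]
    have e3 : Finset.univ.erase l = ({0, 1} : Finset (Fin 3)) := by
      rw [h]
      decide
    constructor
    · rintro ⟨r, h1, h2, h3⟩
      refine ⟨r, ((K23_fin3 _ l).2.2 h).mpr ⟨h1, h2⟩, ?_⟩
      rw [e3, Finset.sum_pair (by decide), h3, h]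
    · rintro ⟨r, h1, h2⟩
      obtain ⟨h3, h4⟩ := ((K23_fin3 _ l).2.2 h).mp h1
      rw [e3, Finset.sum_pair (by decide), h] at h2
      exact ⟨r, h3, h4, h2⟩

/-- two factors: normal form -/
theorem K23_two (hPRM : PRM_stmt) (n d : Fin 2 → ℕ) (l : Fin 2) (hl : n l = 1) :
    ∃ m e : ℕ, ∃ i, i ≠ l ∧ m = n i ∧ e = d l ∧ (∀ j, j ≠ l → j = i) ∧
      (Special n d ↔ Special ![m, 1] ![d i, e]) := by
  have hl2 : l = 0 ∨ l = 1 := by
    fin_cases l
    · exact Or.inl rfl
    · exact Or.inr rfl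
  rcases hl2 with h | h
  · refine ⟨n 1, d l, 1, by rw [h]; decide, rfl, rfl, ?_, ?_⟩
    · intro j hj
      fin_cases j
      · exact absurd h.symm hj
      · rfl
    · have e1 : n ∘ (Equiv.swap (1 : Fin 2) 0) = ![n 1, 1] := by
        funext i
        fin_cases i
        · rfl
        · change n 0 = 1
          rw [← h]
          exact hl
      have e2 : d ∘ (Equiv.swap (1 : Fin 2) 0) = ![d 1, d l] := by
        funext i
        fin_cases i
        · rfl
        · change d 0 = d l
          rw [h]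
      rw [← hPRM 2 (Equiv.swap (1 : Fin 2) 0) n d, e1, e2]
  · refine ⟨n 0, d l, 0, by rw [h]; decide, rfl, rfl, ?_, ?_⟩
    · intro j hj
      fin_cases j
      · rfl
      · exact absurd h.symm hj
    · have e1 : n = ![n 0, 1] := by
        funext i
        fin_cases i
        · rfl
        · change n 1 = 1
          rw [← h]
          exact hl
      have e2 : d = ![d 0, d l] := by
        funext i
        fin_cases i
        · rfl
        · change d 1 = d l
          rw [h]
      rw [← e1, ← e2]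

theorem K23 (hFIN : FIN_stmt) (hE20 : E20_stmt) (hE10 : E10_stmt) (hE11 : E11_stmt)
    (hPRM : PRM_stmt) : K23_stmt := by
  intro k n hk hn
  refine (hFIN k n (by omega) hn).subset ?_
  rintro d ⟨hd, hne⟩
  have hspec : ¬ Crit n d → Special n d := by
    intro hc
    by_contra hs
    exact hne ⟨fun h => absurd h hs, fun h => absurd h hc⟩
  rcases hk with hk | hk
  · subst hk
    have hf1 : ¬ (∃ l, n l = 1 ∧ ∀ i, i ≠ l → d i = 1) := by
      rintro ⟨l, hl, hd1⟩
      apply hne
      obtain ⟨m, e, i, hi, hm, he, huniq, hsp⟩ := K23_two hPRM n d l hl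
      have h1 : ¬ Special n d := by
        rw [hsp, hd1 i hi]
        exact hE10 m e (by rw [hm]; exact hn i) (by rw [he]; exact hd l)
      have h2 : ¬ Crit n d := by
        rintro (⟨_, l', hl', hd2, hev⟩ | ⟨h3, _⟩)
        · by_cases hll : l' = l
          · rw [hll] at hd2
            have h4 := hd2 i hi
            have h5 := hd1 i hi
            omega
          · rw [hd1 l' hll] at hev
            exact absurd hev (by decide)
        · omega
      exact ⟨fun h => absurd h h1, fun h => absurd h h2⟩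
    have hf2 : ¬ ((2 : ℕ) = 2 ∧ ∃ l, n l = 1 ∧ ∀ i, i ≠ l → d i = 2) := by
      rintro ⟨_, l, hl, hd2⟩
      apply hne
      obtain ⟨m, e, i, hi, hm, he, huniq, hsp⟩ := K23_two hPRM n d l hl
      rw [hsp, hd2 i hi, hE20 m e (by rw [hm]; exact hn i) (by rw [he]; exact hd l), he]
      constructor
      · intro hev
        exact Or.inl ⟨rfl, l, hl, hd2, hev⟩
      · rintro (⟨_, l', hl', hd2', hev⟩ | ⟨h3, _⟩)
        · by_cases hll : l' = l
          · rw [← hll]
            exact hev
          · rw [hd2' l (Ne.symm hll)]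
            decide
        · omega
    refine ⟨hd, hspec ?_, hf1, hf2⟩
    rintro (⟨_, l, hl, hd2, _⟩ | ⟨h3, _⟩)
    · exact hf2 ⟨rfl, l, hl, hd2⟩
    · omega
  · subst hk
    have hf1 : ¬ (∃ l, n l = 1 ∧ ∀ i, i ≠ l → d i = 1) := by
      rintro ⟨l, hl, hd1⟩
      apply hne
      constructor
      · intro hs
        have h1 := (K23_three hPRM hE11 n d hn hd l hl hd1).mp hs
        exact Or.inr ⟨rfl, l, hl, hd1, h1⟩
      · rintro (⟨h3, _⟩ | ⟨_, l', hl', hd1', h1⟩)
        · omega
        · exact (K23_three hPRM hE11 n d hn hd l' hl' hd1').mpr h1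
    have hf2 : ¬ ((3 : ℕ) = 2 ∧ ∃ l, n l = 1 ∧ ∀ i, i ≠ l → d i = 2) := by
      rintro ⟨h, _⟩
      omega
    refine ⟨hd, hspec ?_, hf1, hf2⟩
    rintro (⟨h3, _⟩ | ⟨_, l, hl, hd1, _⟩)
    · omega
    · exact hf1 ⟨l, hl, hd1⟩

end Pool.Agent.SV
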