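import Pool.Agent.helper80.SV.Spec

/-!
# Row sv:SQN (problem MP_b5a345_ag): concave sequences of natural numbers
-/

set_option autoImplicit false

namespace Pool.Agent.SV

theorem SQN : SQN_stmt := by
  intro d D hD hanti hle hmono heq hzero
  have hanti' : ∀ a b, a ≤ b → d b ≤ d a := by
    intro a b hab
    induction b, hab using Nat.le_induction with
    | base => exact le_rfl
    | succ n _ ih => exact (hanti n).trans ih
  -- the first index with a drop less than `D`
  have hex : ∃ m, d m - d (m + 1) < D := by
    by_contra hcon
    push Not at hcon
    have h1 : ∀ r, d r + r * D ≤ d 0 := by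
      intro r
      induction r with
      | zero => simp
      | succ r ih =>
        have h2 := hcon r
        have h3 : (r + 1) * D = r * D + D := by ring
        omega
    have h4 := h1 (d 0 + 1)
    have h5 : d 0 + 1 ≤ (d 0 + 1) * D := Nat.le_mul_of_pos_right _ hD
    omega
  obtain ⟨m, hm, hmin⟩ : ∃ m, d m - d (m + 1) < D ∧ ∀ r < m, D ≤ d r - d (r + 1) := by
    classical
    refine ⟨Nat.find hex, Nat.find_spec hex, ?_⟩
    intro r hr
    have := Nat.find_min hex hr
    omega
  have hlin : ∀ r ≤ m, d r + r * D = d 0 := by
    intro r
    induction r with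
    | zero => simp
    | succ r ih =>
      intro hr
      have h1 := ih (by omega)
      have h2 := hmin r (by omega)
      have h3 := hle r
      have h4 : (r + 1) * D = r * D + D := by ring
      omega
  have hdrop : ∀ i, d (m + i) - d (m + i + 1) ≤ D - 1 - i := by
    intro i
    induction i with
    | zero => simp only [Nat.add_zero]; omega
    | succ i ih =>
      have h1 := hmono (m + i)
      have e2 : m + i + 1 + 1 = m + i + 2 := by ring
      rcases Nat.lt_or_ge (d (m + i + 1) - d (m + i + 2)) (d (m + i) - d (m + i + 1)) with h2 | h2
      · have e : m + (i + 1) = m + i + 1 := by ring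
        rw [e, e2]
        omega
      · have h3 : d (m + i + 1) - d (m + i + 2) = d (m + i) - d (m + i + 1) := by omega
        have e : m + (i + 1) = m + i + 1 := by ring
        rw [e, e2]
        rcases heq (m + i) h3 with h4 | h4
        · omega
        · omega
  have hend : d (m + (D - 1)) = 0 := by
    apply hzero
    have h1 := hdrop (D - 1)
    have h2 := hanti (m + (D - 1))
    omega
  have hback : ∀ k ≤ D - 1, 2 * d (m + (D - 1 - k)) ≤ k * (k + 1) := by
    intro k
    induction k with
    | zero =>
      intro _
      simp [hend]
    | succ k ih =>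
      intro hk
      have h1 := ih (by omega)
      have h2 := hdrop (D - 1 - (k + 1))
      have e : m + (D - 1 - (k + 1)) + 1 = m + (D - 1 - k) := by omega
      rw [e] at h2
      have h3 : (k + 1) * (k + 1 + 1) = k * (k + 1) + 2 * (k + 1) := by ring
      omega
  intro b
  constructor
  · intro hb1 hb2
    rcases Nat.lt_or_ge m b with h | h
    · exfalso
      have h1 := hback (D - 1) le_rfl
      rw [Nat.sub_self, Nat.add_zero] at h1
      have h2 := hlin m le_rfl
      have h3 : m * D ≤ (b - 1) * D := Nat.mul_le_mul_right _ (by omega)
      have h4 : (D - 1) * (D - 1 + 1) = D * (D - 1) := by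
        rw [Nat.sub_add_cancel hD]
        ring
      rw [h4] at h1
      omega
    · exact hlin b h
  · intro hb
    have h1 : m ≤ d 0 / D := by
      rw [Nat.le_div_iff_mul_le hD]
      have := hlin m le_rfl
      omega
    have h2 : m + (D - 1) ≤ b := by
      generalize d 0 / D = q at *
      omega
    have h3 := hanti' _ _ h2
    omega

end Pool.Agent.SV
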